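import Mathlib
import Pool.Agent.U831.HY.Main
import Pool.Agent.TH900.XM.Meas

/-!
# The multiples of linear forms in `ζ(11), ζ(13), …, ζ(27)` modulo one, outside one hyperplane

Let `0 < κ`, `0 ≤ η`, `M ≥ 1` and `14652 M (κ + η) < 1`. For every large `X` there is ONE hyperplane
of `ℚ^9` such that at all scales `N` between `X` and `X ^ M` and for all integer forms
`θ = l_0 ζ(11) + l_1 ζ(13) + … + l_8 ζ(27)` with `|l_i| ≤ N ^ η` and `l` outside the hyperplane, the
sequence `n θ + γ`, `n < N`, is equidistributed modulo one with an error at most `N ^ (1 - κ)` in all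
intervals, for all real `γ`. In particular this holds for one of the nine numbers themselves, and for
one member of every family of nine linearly independent forms.

If one of the numbers is rational the exceptional hyperplane contains the corresponding unit vector;
Q1 for `ζ(11)` asks for more: no form should be exceptional at all large scales.

The proof: a form with a larger error is close to a fraction with a denominator at most
`20 N ^ κ` (the discrepancy of `n θ` for an arbitrary real `θ`, `Pool.Agent.U831.JE.Disc`); nine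
linearly independent such forms would give (Cramer's rule) simultaneous approximations of the nine numbers which
contradict the measure of the starting library (`MeasureZeta11To27`, exponent `1628`).
-/

set_option autoImplicit false

namespace Pool.Agent.Results.MP_4f096c_nt.HyperplaneOfForms

open Finset

/-- the numbers `ζ(11), ζ(13), …, ζ(27)`, for `i = 0, …, 8` -/
noncomputable def number (i : Fin 9) : ℝ := ∑' n : ℕ, 1 / ((n : ℝ) + 1) ^ (2 * (i : ℕ) + 11)

/-- the number of `n < N` with the fractional part of `n θ + γ` in `[u, v)` -/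
noncomputable def count (θ γ u v : ℝ) (N : ℕ) : ℕ :=
  ((range N).filter fun n : ℕ => u ≤ Int.fract (n * θ + γ) ∧ Int.fract (n * θ + γ) < v).card

/-- At all scales between `X` and `X ^ M` all integer forms in `ζ(11), …, ζ(27)` outside one
hyperplane are equidistributed with a power saving. -/
theorem result : (∀ i : Fin 9, ((number i : ℝ) : ℂ) = riemannZeta ((2 * (i : ℕ) + 11 : ℕ) : ℂ)) ∧
    ∀ κ η M : ℝ, 0 < κ → 0 ≤ η → 1 ≤ M → 14652 * M * (κ + η) < 1 →
      ∃ X₀ : ℝ, ∀ X : ℝ, X₀ ≤ X → ∃ w : Fin 9 → ℚ, w ≠ 0 ∧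
        ∀ N : ℕ, X ≤ N → (N : ℝ) ≤ X ^ M → ∀ l : Fin 9 → ℤ, (∀ i, |(l i : ℝ)| ≤ (N : ℝ) ^ η) →
          ∑ i, w i * l i ≠ 0 → ∀ γ u v : ℝ, 0 ≤ u → u ≤ v → v ≤ 1 →
            |(count (∑ i, (l i : ℝ) * number i) γ u v N : ℝ) - (v - u) * N| ≤
              (N : ℝ) ^ (1 - κ) := by
  refine ⟨fun i => ?_, fun κ η M hκ hη hM h => ?_⟩
  · rw [zeta_eq_tsum_one_div_nat_add_one_cpow (by simp; linarith), number, Complex.ofReal_tsum]
    refine tsum_congr fun n => ?_
    rw [Complex.cpow_natCast]
    push_cast
    rfl
  · obtain ⟨c, hc, hm⟩ := Pool.Agent.TH900.XM.measure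
    have hk : κ < 1 / 2 := by
      have : 0 ≤ M * η := by positivity
      nlinarith
    obtain ⟨X₀, hX₀⟩ := Pool.Agent.U831.HY.hyper number 1628 (by norm_num) c hc (fun a q hq => by
      obtain ⟨j, hj, hv⟩ := hm (fun j => if hj : (j - 11) / 2 < 9 then a ⟨(j - 11) / 2, hj⟩ else 0) q hq
      have key : ∀ i : Fin 9, j = 2 * (i : ℕ) + 11 → ∃ i, c / (q : ℝ) ^ 1628 ≤ |number i - a i / q| := by
        intro i hij
        refine ⟨i, ?_⟩
        subst hij
        have h1 : (2 * (i : ℕ) + 11 - 11) / 2 = i := by omega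
        have h2 : (2 * (i : ℕ) + 11 - 11) / 2 < 9 := by omega
        rw [dif_pos h2] at hv
        have h3 : (⟨(2 * (i : ℕ) + 11 - 11) / 2, h2⟩ : Fin 9) = i := Fin.ext h1
        rw [h3] at hv
        exact hv
      fin_cases hj
      · exact key 0 rfl
      · exact key 1 rfl
      · exact key 2 rfl
      · exact key 3 rfl
      · exact key 4 rfl
      · exact key 5 rfl
      · exact key 6 rfl
      · exact key 7 rfl
      · exact key 8 rfl) κ η M hκ hη hk hM (by
        have : ((1628 : ℕ) : ℝ) * ((9 : ℕ) : ℝ) * M * (κ + η) = 14652 * M * (κ + η) := by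
          norm_num
        rw [this]
        exact h)
    refine ⟨max X₀ 1, fun X hX => ?_⟩
    obtain ⟨w, hw, hN⟩ := hX₀ X ((le_max_left _ _).trans hX)
    refine ⟨w, hw, fun N h1 h2 l hl hwl γ u v hu huv hv => ?_⟩
    have h3 := hN N h1 h2 l hl hwl γ u v hu huv hv
    have hN0 : (0 : ℝ) < N := by
      have := (le_max_right X₀ 1).trans hX
      linarith
    have h4 : (N : ℝ) ^ (-κ) * N = (N : ℝ) ^ (1 - κ) := by
      rw [sub_eq_add_neg, add_comm, Real.rpow_add hN0, Real.rpow_one]
    rw [h4] at h3
    exact h3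

end Pool.Agent.Results.MP_4f096c_nt.HyperplaneOfForms
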