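import Mathlib
import Pool.Agent.U831.HY.Main
import Pool.Agent.U795.ZM.Meas

/-!
# The multiples of `ζ(11)` and of linear forms in `ζ(7), ζ(9), ζ(11), ζ(13)` modulo one

Let `0 < κ`, `0 ≤ η`, `M ≥ 1` and `10732 M (κ + η) < 1`. For every large `X` there is ONE hyperplane
of `ℚ^4` such that at all scales `N` between `X` and `X ^ M` and for all integer forms
`θ = l_0 ζ(7) + l_1 ζ(9) + l_2 ζ(11) + l_3 ζ(13)` with `|l_i| ≤ N ^ η` and `l` outside the hyperplane,
the sequence `n θ + γ`, `n < N`, is equidistributed modulo one with an error at most `N ^ (1 - κ)` in all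
intervals, for all real `γ`.

For `ζ(11)` this gives a dichotomy at every large scale `X`: either the multiples of `l ζ(11)`, for all
`l ≠ 0` with `|l| ≤ N ^ η`, are equidistributed in this sense for all `N` between `X` and `X ^ M`, or the
exceptional hyperplane is given by a relation between `l_0, l_1, l_3` alone: then all forms with
`w_0 l_0 + w_1 l_1 + w_3 l_3 ≠ 0` are equidistributed, whatever the coefficient of `ζ(11)` is. If
`ζ(7)`, `ζ(9)` and `ζ(13)` are rational, then the first case holds at all large scales.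

The hyperplane theorem is `Pool.Agent.U831.HY.hyper` (helper831), here with the simultaneous measure
of `ζ(7), ζ(9), ζ(11), ζ(13)` of helper795.
-/

set_option autoImplicit false

namespace Pool.Agent.Results.MP_4f096c_nt.HyperplaneZeta7To13

open Finset

/-- the numbers `ζ(7), ζ(9), ζ(11), ζ(13)`, for `i = 0, 1, 2, 3` -/
noncomputable def number (i : Fin 4) : ℝ := ∑' n : ℕ, 1 / ((n : ℝ) + 1) ^ (2 * (i : ℕ) + 7)

/-- the number of `n < N` with the fractional part of `n θ + γ` in `[u, v)` -/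
noncomputable def count (θ γ u v : ℝ) (N : ℕ) : ℕ :=
  ((range N).filter fun n : ℕ => u ≤ Int.fract (n * θ + γ) ∧ Int.fract (n * θ + γ) < v).card

/-- the sequences `n θ + γ`, `n < N`, are equidistributed modulo one with an error at most
`N ^ (1 - κ)` in all intervals -/
def Equidistributed (κ : ℝ) (N : ℕ) (θ : ℝ) : Prop :=
  ∀ γ u v : ℝ, 0 ≤ u → u ≤ v → v ≤ 1 →
    |(count θ γ u v N : ℝ) - (v - u) * N| ≤ (N : ℝ) ^ (1 - κ)

theorem hyperplane (κ η M : ℝ) (hκ : 0 < κ) (hη : 0 ≤ η) (hM : 1 ≤ M)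
    (h : 10732 * M * (κ + η) < 1) :
    ∃ X₀ : ℝ, ∀ X : ℝ, X₀ ≤ X → ∃ w : Fin 4 → ℚ, w ≠ 0 ∧
      ∀ N : ℕ, X ≤ N → (N : ℝ) ≤ X ^ M → ∀ l : Fin 4 → ℤ, (∀ i, |(l i : ℝ)| ≤ (N : ℝ) ^ η) →
        ∑ i, w i * l i ≠ 0 → Equidistributed κ N (∑ i, (l i : ℝ) * number i) := by
  obtain ⟨c, hc, hm⟩ := Pool.Agent.U795.ZM.measure
  have hk : κ < 1 / 2 := by
    have : 0 ≤ M * η := by positivity
    nlinarith
  obtain ⟨X₀, hX₀⟩ := Pool.Agent.U831.HY.hyper number 2683 (by norm_num) c hc (fun a q hq => by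
    obtain ⟨j, hj, hv⟩ := hm (fun j => if hj : (j - 7) / 2 < 4 then a ⟨(j - 7) / 2, hj⟩ else 0) q hq
    have key : ∀ i : Fin 4, j = 2 * (i : ℕ) + 7 → ∃ i, c / (q : ℝ) ^ 2683 ≤ |number i - a i / q| := by
      intro i hij
      refine ⟨i, ?_⟩
      subst hij
      have h1 : (2 * (i : ℕ) + 7 - 7) / 2 = i := by omega
      have h2 : (2 * (i : ℕ) + 7 - 7) / 2 < 4 := by omega
      rw [dif_pos h2] at hv
      have h3 : (⟨(2 * (i : ℕ) + 7 - 7) / 2, h2⟩ : Fin 4) = i := Fin.ext h1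
      rw [h3] at hv
      exact hv
    fin_cases hj
    · exact key 0 rfl
    · exact key 1 rfl
    · exact key 2 rfl
    · exact key 3 rfl) κ η M hκ hη hk hM (by
      have : ((2683 : ℕ) : ℝ) * ((4 : ℕ) : ℝ) * M * (κ + η) = 10732 * M * (κ + η) := by
        norm_num
      rw [this]
      exact h)
  refine ⟨max X₀ 1, fun X hX => ?_⟩
  obtain ⟨w, hw, hN⟩ := hX₀ X ((le_max_left _ _).trans hX)
  refine ⟨w, hw, fun N h1 h2 l hl hwl γ u v hu huv hv => ?_⟩
  have h3 := hN N h1 h2 l hl hwl γ u v hu huv hv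
  have hN0 : (0 : ℝ) < N := by
    have := (le_max_right X₀ 1).trans hX
    linarith
  have h4 : (N : ℝ) ^ (-κ) * N = (N : ℝ) ^ (1 - κ) := by
    rw [sub_eq_add_neg, add_comm, Real.rpow_add hN0, Real.rpow_one]
  rw [h4] at h3
  exact h3

/-- the form with the only coefficient `l` at `j` -/
theorem single_form (j : Fin 4) (l : ℤ) :
    ∑ i, (((Pi.single j l : Fin 4 → ℤ) i : ℤ) : ℝ) * number i = (l : ℝ) * number j := by
  rw [Finset.sum_eq_single j]
  · rw [Pi.single_eq_same]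
  · intro b _ hb
    rw [Pi.single_eq_of_ne hb]
    simp
  · simp

theorem single_pair (w : Fin 4 → ℚ) (j : Fin 4) (l : ℤ) :
    ∑ i, w i * (((Pi.single j l : Fin 4 → ℤ) i : ℤ) : ℚ) = w j * l := by
  rw [Finset.sum_eq_single j]
  · rw [Pi.single_eq_same]
  · intro b _ hb
    rw [Pi.single_eq_of_ne hb]
    simp
  · simp

theorem single_abs (j : Fin 4) (l : ℤ) {B : ℝ} (hB : 0 ≤ B) (hl : |(l : ℝ)| ≤ B) (i : Fin 4) :
    |(((Pi.single j l : Fin 4 → ℤ) i : ℤ) : ℝ)| ≤ B := by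
  by_cases h : i = j
  · subst h
    rw [Pi.single_eq_same]
    exact hl
  · rw [Pi.single_eq_of_ne h]
    simpa using hB

/-- the multiples of a rational number avoid an interval -/
theorem rational_count (a : ℤ) (D : ℕ) (hD : 0 < D) (N : ℕ) :
    count ((a : ℝ) / D) 0 (1 / (3 * D)) (1 / (2 * D)) N = 0 := by
  unfold count
  rw [Finset.card_eq_zero, Finset.filter_eq_empty_iff]
  rintro n - ⟨h1, h2⟩
  have hD' : (0 : ℝ) < D := by exact_mod_cast hD
  set f : ℝ := Int.fract ((n : ℝ) * ((a : ℝ) / D) + 0) with hf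
  set z : ℤ := (n : ℤ) * a - D * ⌊(n : ℝ) * ((a : ℝ) / D) + 0⌋ with hz
  have hfz : f * D = z := by
    rw [hf, Int.fract, hz]
    push_cast
    field_simp
    ring
  have h3 : (0 : ℝ) < z := by
    rw [← hfz]
    have : 0 < 1 / (3 * (D : ℝ)) := by positivity
    have : 0 < f := lt_of_lt_of_le this h1
    positivity
  have h4 : (z : ℝ) < 1 := by
    rw [← hfz]
    have h5 : f * D < 1 / (2 * D) * D := mul_lt_mul_of_pos_right h2 hD'
    have h6 : 1 / (2 * (D : ℝ)) * D = 1 / 2 := by field_simp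
    linarith
  have h5 : 0 < z := by exact_mod_cast h3
  have h6 : z < 1 := by exact_mod_cast h4
  omega

theorem rational_not (a : ℤ) (D : ℕ) (hD : 0 < D) (κ : ℝ) (hκ : 0 < κ) :
    ∃ X₀ : ℝ, ∀ N : ℕ, X₀ ≤ N → ¬ Equidistributed κ N ((a : ℝ) / D) := by
  have hD' : (0 : ℝ) < D := by exact_mod_cast hD
  have h1 : Filter.Tendsto (fun X : ℝ => X ^ κ) Filter.atTop Filter.atTop := tendsto_rpow_atTop hκ
  obtain ⟨X₀, hX₀⟩ := Filter.eventually_atTop.1
    ((h1.eventually_gt_atTop (6 * (D : ℝ))).and (Filter.eventually_ge_atTop (1 : ℝ)))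
  refine ⟨X₀, fun N hN he => ?_⟩
  obtain ⟨h2, h3⟩ := hX₀ N hN
  have h4 := he 0 (1 / (3 * D)) (1 / (2 * D)) (by positivity)
    (one_div_le_one_div_of_le (by positivity) (by linarith)) (by
      rw [div_le_one (by positivity)]
      have : (1 : ℝ) ≤ D := by exact_mod_cast hD
      linarith)
  rw [rational_count a D hD N] at h4
  have hN0 : (0 : ℝ) < N := by linarith
  have h5 : (1 / (2 * (D : ℝ)) - 1 / (3 * D)) = 1 / (6 * D) := by
    field_simp
    norm_num
  rw [h5] at h4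
  push_cast at h4
  rw [zero_sub, abs_neg, abs_of_nonneg (by positivity)] at h4
  have h6 : (N : ℝ) ^ (1 - κ) * (N : ℝ) ^ κ = N := by
    rw [← Real.rpow_add hN0, sub_add_cancel, Real.rpow_one]
  have h7 : (0 : ℝ) < (N : ℝ) ^ κ := Real.rpow_pos_of_pos hN0 _
  have h8 : 1 / (6 * (D : ℝ)) * N * (N : ℝ) ^ κ ≤ N := by
    calc 1 / (6 * (D : ℝ)) * N * (N : ℝ) ^ κ ≤ (N : ℝ) ^ (1 - κ) * (N : ℝ) ^ κ :=
          mul_le_mul_of_nonneg_right h4 h7.le
      _ = N := h6
  have h9 : (N : ℝ) ^ κ ≤ 6 * D := by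
    have h10 : 1 / (6 * (D : ℝ)) * N * (N : ℝ) ^ κ = N * ((N : ℝ) ^ κ / (6 * D)) := by
      field_simp
    rw [h10] at h8
    have h11 : (N : ℝ) ^ κ / (6 * D) ≤ 1 := by
      by_contra hcon
      push Not at hcon
      nlinarith
    rwa [div_le_one (by positivity)] at h11
  linarith

/-- (1) The numbers are values of the Riemann zeta function. Let `0 < κ`, `0 ≤ η`, `M ≥ 1`,
`10732 M (κ + η) < 1`. (2) At all scales between `X` and `X ^ M` all integer forms in
`ζ(7), ζ(9), ζ(11), ζ(13)` outside one hyperplane are equidistributed with a power saving. (3) For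
every large `X` either the multiples of `ζ(11)` are, or the exceptional hyperplane does not depend on the
coefficient of `ζ(11)`. (4) If `ζ(7)`, `ζ(9)`, `ζ(13)` are rational, then for all large `N` all
the multiples `l ζ(11)`, `0 < |l| ≤ N ^ η`, are equidistributed (here `M = 1`). -/
theorem result : (∀ i : Fin 4, ((number i : ℝ) : ℂ) = riemannZeta ((2 * (i : ℕ) + 7 : ℕ) : ℂ)) ∧
    (∀ κ η M : ℝ, 0 < κ → 0 ≤ η → 1 ≤ M → 10732 * M * (κ + η) < 1 →
      (∃ X₀ : ℝ, ∀ X : ℝ, X₀ ≤ X → ∃ w : Fin 4 → ℚ, w ≠ 0 ∧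
        ∀ N : ℕ, X ≤ N → (N : ℝ) ≤ X ^ M → ∀ l : Fin 4 → ℤ, (∀ i, |(l i : ℝ)| ≤ (N : ℝ) ^ η) →
          ∑ i, w i * l i ≠ 0 → Equidistributed κ N (∑ i, (l i : ℝ) * number i)) ∧
      (∃ X₀ : ℝ, ∀ X : ℝ, X₀ ≤ X →
        (∀ N : ℕ, X ≤ N → (N : ℝ) ≤ X ^ M → ∀ l : ℤ, l ≠ 0 → |(l : ℝ)| ≤ (N : ℝ) ^ η →
          Equidistributed κ N (l * number 2)) ∨
        (∃ w : Fin 4 → ℚ, w ≠ 0 ∧ w 2 = 0 ∧
          ∀ N : ℕ, X ≤ N → (N : ℝ) ≤ X ^ M → ∀ l : Fin 4 → ℤ,
            (∀ i, |(l i : ℝ)| ≤ (N : ℝ) ^ η) → ∑ i, w i * l i ≠ 0 →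
              Equidistributed κ N (∑ i, (l i : ℝ) * number i)))) ∧
    ((∀ i : Fin 4, i ≠ 2 → ∃ r : ℚ, number i = r) →
      ∀ κ η : ℝ, 0 < κ → 0 ≤ η → 10732 * (κ + η) < 1 →
        ∃ X₀ : ℝ, ∀ N : ℕ, X₀ ≤ N → ∀ l : ℤ, l ≠ 0 → |(l : ℝ)| ≤ (N : ℝ) ^ η →
          Equidistributed κ N (l * number 2)) := by
  refine ⟨fun i => ?_, fun κ η M hκ hη hM h => ⟨hyperplane κ η M hκ hη hM h, ?_⟩,
    fun hr κ η hκ hη h => ?_⟩
  · rw [zeta_eq_tsum_one_div_nat_add_one_cpow (by simp; linarith), number, Complex.ofReal_tsum]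
    refine tsum_congr fun n => ?_
    rw [Complex.cpow_natCast]
    push_cast
    rfl
  · obtain ⟨X₀, hX₀⟩ := hyperplane κ η M hκ hη hM h
    refine ⟨X₀, fun X hX => ?_⟩
    obtain ⟨w, hw, hN⟩ := hX₀ X hX
    by_cases h2 : w 2 = 0
    · exact Or.inr ⟨w, hw, h2, hN⟩
    · left
      intro N h3 h4 l hl hlN
      have h5 := hN N h3 h4 (Pi.single 2 l)
        (single_abs 2 l (by positivity) hlN) (by
          rw [single_pair]
          exact mul_ne_zero h2 (by exact_mod_cast hl))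
      rwa [single_form] at h5
  · have hone : 10732 * (1 : ℝ) * (κ + η) < 1 := by rw [mul_one]; exact h
    obtain ⟨X₀, hX₀⟩ := hyperplane κ η 1 hκ hη le_rfl hone
    have hx : ∀ i : Fin 4, ∃ X₁ : ℝ, i ≠ 2 → ∀ N : ℕ, X₁ ≤ N → ¬ Equidistributed κ N (number i) := by
      intro i
      by_cases hi : i = 2
      · exact ⟨0, fun h => absurd hi h⟩
      · obtain ⟨r, hr'⟩ := hr i hi
        obtain ⟨X₁, h1⟩ := rational_not r.num r.den r.den_pos κ hκ
        refine ⟨X₁, fun _ N hN => ?_⟩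
        have h2 : number i = (r.num : ℝ) / (r.den : ℝ) := by
          rw [hr']
          exact_mod_cast (Rat.num_div_den r).symm
        rw [h2]
        exact h1 N hN
    choose X₁ hX₁ using hx
    refine ⟨max (max X₀ 1) (∑ i, |X₁ i|), fun N hN l hl hlN => ?_⟩
    have hN1 : X₀ ≤ N := (le_max_left _ _).trans ((le_max_left _ _).trans hN)
    have hN2 : (1 : ℝ) ≤ N := (le_max_right _ _).trans ((le_max_left _ _).trans hN)
    have hN3 : ∀ i, X₁ i ≤ N := fun i => by
      refine (le_abs_self _).trans (le_trans ?_ ((le_max_right _ _).trans hN))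
      exact Finset.single_le_sum (f := fun i => |X₁ i|) (fun i _ => abs_nonneg _) (mem_univ i)
    obtain ⟨w, hw, hNN⟩ := hX₀ N hN1
    have hw0 : ∀ i : Fin 4, i ≠ 2 → w i = 0 := by
      intro i hi
      by_contra hne
      have h5 := hNN N le_rfl (by rw [Real.rpow_one]) (Pi.single i 1)
        (single_abs i 1 (by positivity) (by
          rw [Int.cast_one, abs_one]
          exact Real.one_le_rpow hN2 hη)) (by
          rw [single_pair]
          simpa using hne)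
      rw [single_form, Int.cast_one, one_mul] at h5
      exact hX₁ i hi N (hN3 i) h5
    have h2 : w 2 ≠ 0 := by
      intro h2
      apply hw
      funext i
      by_cases hi : i = 2
      · rw [hi, h2]
        rfl
      · rw [hw0 i hi]
        rfl
    have h5 := hNN N le_rfl (by rw [Real.rpow_one]) (Pi.single 2 l)
      (single_abs 2 l (by positivity) hlN) (by
        rw [single_pair]
        exact mul_ne_zero h2 (by exact_mod_cast hl))
    rwa [single_form] at h5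

end Pool.Agent.Results.MP_4f096c_nt.HyperplaneZeta7To13
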