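import Pool.Agent.U795.ZM.Meas

set_option autoImplicit false

/-!
# `ζ(11)` and the three numbers `ζ(7), ζ(9), ζ(13)`

Rational numbers with a common denominator `q` cannot approximate all the four numbers `ζ(7)`, `ζ(9)`, `ζ(11)`,
`ζ(13)` with an error below `c q^(-2683)`. In particular `ζ(11)` is irrational if the three numbers `ζ(7)`, `ζ(9)`,
`ζ(13)` are rational, and then its irrationality exponent is at most `2683`. The measure is
`Pool.Agent.U795.ZM.measure` (helper795), which was handed in for `ζ(9)` as `MP_db0fbf_nt.MeasureZeta7To13`; the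
starting files of this problem have such a measure for the nine numbers `ζ(11), ζ(13), …, ζ(27)`.
-/

namespace Pool.Agent.Results.MP_4f096c_nt.MeasureZeta7To13

/-- The real number `ζ(j) = ∑ 1/(n+1)^j`. -/
noncomputable def zetaValue (j : ℕ) : ℝ := ∑' n : ℕ, 1 / ((n : ℝ) + 1) ^ j

/-- There is `c > 0` such that

(1) for all integers `a j` and `q ≥ 1` there is `j ∈ {7, 9, 11, 13}` with `|ζ(j) - a j / q| ≥ c q^(-2683)`;

(2) if `ζ(7)`, `ζ(9)` and `ζ(13)` are rational with common denominator `D ≥ 1`, then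
`|ζ(11) - a / q| ≥ c (D q)^(-2683)` for all integers `a` and `q ≥ 1`; in particular

(3) `ζ(11)` is irrational or one of the three numbers `ζ(7)`, `ζ(9)`, `ζ(13)` is irrational. -/
theorem result :
    (∃ c : ℝ, 0 < c ∧
      (∀ (a : ℕ → ℤ) (q : ℕ), 0 < q → ∃ j ∈ ({7, 9, 11, 13} : Finset ℕ),
        c / (q : ℝ) ^ 2683 ≤ |zetaValue j - (a j : ℝ) / q|) ∧
      ∀ D : ℕ, 0 < D → (∀ j ∈ ({7, 9, 13} : Finset ℕ), ∃ b : ℤ, zetaValue j = b / D) →
        ∀ (a : ℤ) (q : ℕ), 0 < q →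
          c / ((D : ℝ) * q) ^ 2683 ≤ |zetaValue 11 - (a : ℝ) / q|) ∧
    (Irrational (zetaValue 11) ∨ ∃ j ∈ ({7, 9, 13} : Finset ℕ), Irrational (zetaValue j)) := by
  obtain ⟨c, hc, h⟩ := Pool.Agent.U795.ZM.measure
  have h1 : ∀ (a : ℕ → ℤ) (q : ℕ), 0 < q → ∃ j ∈ ({7, 9, 11, 13} : Finset ℕ),
      c / (q : ℝ) ^ 2683 ≤ |zetaValue j - (a j : ℝ) / q| := h
  have h2 : ∀ D : ℕ, 0 < D → (∀ j ∈ ({7, 9, 13} : Finset ℕ), ∃ b : ℤ, zetaValue j = b / D) →
      ∀ (a : ℤ) (q : ℕ), 0 < q →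
        c / ((D : ℝ) * q) ^ 2683 ≤ |zetaValue 11 - (a : ℝ) / q| := by
    intro D hD hb a q hq
    have hb' : ∀ j, ∃ b : ℤ, j ∈ ({7, 9, 13} : Finset ℕ) → zetaValue j = b / D := by
      intro j
      by_cases hj : j ∈ ({7, 9, 13} : Finset ℕ)
      · obtain ⟨b, hb⟩ := hb j hj
        exact ⟨b, fun _ => hb⟩
      · exact ⟨0, fun h => absurd h hj⟩
    choose b hb' using hb'
    have hD' : (D : ℝ) ≠ 0 := by exact_mod_cast hD.ne'
    have hq' : (q : ℝ) ≠ 0 := by exact_mod_cast hq.ne'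
    have hDq : (0 : ℝ) < (D : ℝ) * q := by positivity
    obtain ⟨j, hj, hle⟩ := h1 (fun j => if j = 11 then a * D else b j * q) (D * q)
      (Nat.mul_pos hD hq)
    push_cast at hle
    by_cases hj11 : j = 11
    · subst hj11
      have e1 : ((a : ℝ) * D) / ((D : ℝ) * q) = (a : ℝ) / q := by field_simp
      simp only [if_true] at hle
      push_cast at hle
      rwa [e1] at hle
    · have hj3 : j ∈ ({7, 9, 13} : Finset ℕ) := by
        simp only [Finset.mem_insert, Finset.mem_singleton] at hj ⊢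
        omega
      exfalso
      have e2 : ((b j : ℝ) * q) / ((D : ℝ) * q) = zetaValue j := by
        rw [hb' j hj3]; field_simp
      simp only [hj11, if_false] at hle
      push_cast at hle
      rw [e2, sub_self, abs_zero] at hle
      exact absurd hle (not_le.2 (div_pos hc (pow_pos hDq _)))
  refine ⟨⟨c, hc, h1, h2⟩, ?_⟩
  by_contra hcon
  push Not at hcon
  obtain ⟨h11, h3⟩ := hcon
  have hrat : ∀ j, j ∈ ({7, 9, 11, 13} : Finset ℕ) → ∃ r : ℚ, (r : ℝ) = zetaValue j := by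
    intro j hj
    by_cases hj11 : j = 11
    · subst hj11
      simpa [Irrational] using h11
    · have hj3 : j ∈ ({7, 9, 13} : Finset ℕ) := by
        simp only [Finset.mem_insert, Finset.mem_singleton] at hj ⊢
        omega
      simpa [Irrational] using h3 j hj3
  obtain ⟨r7, h7⟩ := hrat 7 (by simp)
  obtain ⟨r9, h9⟩ := hrat 9 (by simp)
  obtain ⟨r11, h11'⟩ := hrat 11 (by simp)
  obtain ⟨r13, h13⟩ := hrat 13 (by simp)
  set D : ℕ := r7.den * r9.den * r11.den * r13.den with hDdef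
  have hD : 0 < D := by positivity
  have hz : ∀ (r : ℚ), r.den ∣ D → ∃ b : ℤ, (r : ℝ) = (b : ℝ) / D := by
    intro r ⟨k, hk⟩
    refine ⟨r.num * k, ?_⟩
    have h1 : (r : ℝ) = (r.num : ℝ) / r.den := by exact_mod_cast (Rat.num_div_den r).symm
    have h2 : (r.den : ℝ) ≠ 0 := by exact_mod_cast r.den_pos.ne'
    have h3 : (k : ℝ) ≠ 0 := by
      rintro h0
      have : k = 0 := by exact_mod_cast h0
      rw [this, mul_zero] at hk
      omega
    rw [h1, hk]
    push_cast
    field_simp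
  obtain ⟨b7, hb7⟩ := hz r7 ⟨r9.den * r11.den * r13.den, by rw [hDdef]; ring⟩
  obtain ⟨b9, hb9⟩ := hz r9 ⟨r7.den * r11.den * r13.den, by rw [hDdef]; ring⟩
  obtain ⟨b11, hb11⟩ := hz r11 ⟨r7.den * r9.den * r13.den, by rw [hDdef]; ring⟩
  obtain ⟨b13, hb13⟩ := hz r13 ⟨r7.den * r9.den * r11.den, by rw [hDdef]; ring⟩
  have h4 := h2 D hD (by
    intro j hj
    simp only [Finset.mem_insert, Finset.mem_singleton] at hj
    rcases hj with rfl | rfl | rfl
    · exact ⟨b7, by rw [← h7, hb7]⟩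
    · exact ⟨b9, by rw [← h9, hb9]⟩
    · exact ⟨b13, by rw [← h13, hb13]⟩) b11 D hD
  rw [← h11', hb11, sub_self, abs_zero] at h4
  have hDR : (0 : ℝ) < D := by exact_mod_cast hD
  exact absurd h4 (not_le.2 (div_pos hc (pow_pos (by positivity) _)))

end Pool.Agent.Results.MP_4f096c_nt.MeasureZeta7To13
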